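import Pool.Agent.H67.AG.T1

set_option autoImplicit false

open MeasureTheory ProbabilityTheory Filter Topology Finset
open scoped Nat ENNReal

namespace Pool.Agent.H78.AG

open Pool.Agent.H67.AG

theorem pf_AI (h : T_ME) : T_AI := by
  classical
  intro Ω _ P _ T W A e hT hA hsd
  set f : Ω → ℝ := A.indicator (fun _ => (1 : ℝ)) with hf
  have hfm : Measurable f := measurable_const.indicator hA
  have hfb : ∀ ω, |f ω| ≤ 1 := by
    intro ω
    rw [hf]
    by_cases hω : ω ∈ A
    · simp [hω]
    · simp [hω]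
  have hfi : Integrable f P := by
    refine Integrable.of_bound hfm.aestronglyMeasurable 1 (Eventually.of_forall fun ω => ?_)
    rw [Real.norm_eq_abs]
    exact hfb ω
  have hTm : ∀ n, MeasurePreserving (T^[n]) P P := fun n => hT.iterate n
  have hAv : ∀ n, Measurable (Av T W n f) := fun n => by
    unfold Av
    exact (Finset.measurable_sum _ fun l _ => hfm.comp (hTm _).measurable).div_const _
  have hAvb : ∀ n ω, |Av T W n f ω| ≤ 1 := by
    intro n ω
    unfold Av
    rcases Nat.eq_zero_or_pos n with rfl | hn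
    · simp
    · rw [abs_div, Nat.abs_cast, div_le_one (by exact_mod_cast hn)]
      calc |∑ l ∈ range n, f (T^[W * l] ω)| ≤ ∑ l ∈ range n, |f (T^[W * l] ω)| :=
            Finset.abs_sum_le_sum_abs _ _
        _ ≤ ∑ l ∈ range n, (1 : ℝ) := Finset.sum_le_sum fun l _ => hfb _
        _ = n := by simp
  have hAvi : ∀ n, Integrable (Av T W n f) P := fun n => by
    refine Integrable.of_bound (hAv n).aestronglyMeasurable 1 (Eventually.of_forall fun ω => ?_)
    rw [Real.norm_eq_abs]
    exact hAvb n ω
  set g := P[f | Inv T W] with hg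
  have hgi : Integrable g P := integrable_condExp
  have hgb : ∀ᵐ ω ∂P, |g ω| ≤ 1 := by
    exact ae_bdd_abs_condExp_of_ae_bdd_abs (Eventually.of_forall hfb)
  -- first part
  have h1 : ∀ n : ℕ, 0 < n → ∫ ω, |f ω - Av T W n f ω| ∂P ≤ e := by
    intro n hn
    have hn' : (0 : ℝ) < n := by exact_mod_cast hn
    have hpt : ∀ ω, |f ω - Av T W n f ω| ≤
        (∑ l ∈ range n, (symmDiff A (T^[W * l] ⁻¹' A)).indicator (fun _ => (1 : ℝ)) ω) / n := by
      intro ω
      have e1 : f ω - Av T W n f ω = (∑ l ∈ range n, (f ω - f (T^[W * l] ω))) / n := by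
        unfold Av
        rw [Finset.sum_sub_distrib, Finset.sum_const, card_range, nsmul_eq_mul, sub_div,
          mul_div_cancel_left₀ _ hn'.ne']
      rw [e1, abs_div, Nat.abs_cast]
      gcongr
      refine (Finset.abs_sum_le_sum_abs _ _).trans (Finset.sum_le_sum fun l _ => ?_)
      rw [hf]
      by_cases hω : ω ∈ A <;> by_cases hω' : T^[W * l] ω ∈ A <;>
        simp [Set.mem_symmDiff, hω, hω']
    have hmeas : ∀ l, MeasurableSet (symmDiff A (T^[W * l] ⁻¹' A)) := fun l =>
      hA.symmDiff ((hTm _).measurable hA)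
    have hii : ∀ l ∈ range n,
        Integrable ((symmDiff A (T^[W * l] ⁻¹' A)).indicator fun _ => (1 : ℝ)) P := fun l _ =>
      (integrable_const (1 : ℝ)).indicator (hmeas l)
    calc ∫ ω, |f ω - Av T W n f ω| ∂P
        ≤ ∫ ω, (∑ l ∈ range n, (symmDiff A (T^[W * l] ⁻¹' A)).indicator
            (fun _ => (1 : ℝ)) ω) / n ∂P := by
          refine integral_mono (hfi.sub (hAvi n)).abs ((integrable_finsetSum _ hii).div_const _) hpt
      _ = (∑ l ∈ range n, P.real (symmDiff A (T^[W * l] ⁻¹' A))) / n := by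
          rw [integral_div, integral_finsetSum _ hii]
          congr 1
          refine Finset.sum_congr rfl fun l _ => ?_
          rw [integral_indicator_const _ (hmeas l), smul_eq_mul, mul_one]
      _ ≤ (∑ l ∈ range n, e) / n := by
          gcongr with l _
          exact hsd l
      _ = e := by
          rw [Finset.sum_const, card_range, nsmul_eq_mul, mul_div_cancel_left₀ _ hn'.ne']
  have h2 := h Ω P T W f hT hfm hfb
  refine le_of_forall_pos_le_add fun δ hδ => ?_
  have h3 : ∀ᶠ n : ℕ in atTop, ∫ ω, (Av T W n f ω - g ω) ^ 2 ∂P < (δ / 2) * (δ / 2) :=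
    (tendsto_order.1 h2).2 _ (by positivity)
  obtain ⟨n, hn1, hn2⟩ := (h3.and (eventually_gt_atTop 0)).exists
  have hsq : Integrable (fun ω => (Av T W n f ω - g ω) ^ 2) P := by
    refine Integrable.of_bound ((((hAvi n).sub hgi).aestronglyMeasurable.pow 2)) 4 ?_
    filter_upwards [hgb] with ω hω
    rw [Real.norm_eq_abs, abs_pow]
    have : |Av T W n f ω - g ω| ≤ 2 := by
      calc |Av T W n f ω - g ω| ≤ |Av T W n f ω| + |g ω| := abs_sub _ _
        _ ≤ 1 + 1 := add_le_add (hAvb n ω) hω
        _ = 2 := by norm_num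
    nlinarith [abs_nonneg (Av T W n f ω - g ω)]
  have h4 : ∫ ω, |Av T W n f ω - g ω| ∂P ≤ δ := by
    calc ∫ ω, |Av T W n f ω - g ω| ∂P
        ≤ ∫ ω, (δ / 2 + (Av T W n f ω - g ω) ^ 2 / (δ / 2)) ∂P := by
          refine integral_mono ((hAvi n).sub hgi).abs
            ((integrable_const _).add (hsq.div_const _)) fun ω => ?_
          simp only
          set x := |Av T W n f ω - g ω| with hx
          have hx2 : (Av T W n f ω - g ω) ^ 2 = x ^ 2 := by rw [hx, sq_abs]
          rw [hx2]
          have hx0 : 0 ≤ x := abs_nonneg _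
          by_cases hc : x ≤ δ / 2
          · have : 0 ≤ x ^ 2 / (δ / 2) := by positivity
            linarith
          · push Not at hc
            have : x ≤ x ^ 2 / (δ / 2) := by
              rw [le_div_iff₀ (by positivity)]
              nlinarith
            linarith
      _ = δ / 2 + (∫ ω, (Av T W n f ω - g ω) ^ 2 ∂P) / (δ / 2) := by
          rw [integral_add (integrable_const _) (hsq.div_const _), integral_const, integral_div]
          simp
      _ ≤ δ / 2 + δ / 2 := by
          have : (∫ ω, (Av T W n f ω - g ω) ^ 2 ∂P) / (δ / 2) ≤ δ / 2 := by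
            rw [div_le_iff₀ (by positivity)]
            exact hn1.le
          linarith
      _ = δ := by ring
  calc ∫ ω, |f ω - g ω| ∂P
      ≤ ∫ ω, (|f ω - Av T W n f ω| + |Av T W n f ω - g ω|) ∂P := by
        refine integral_mono (hfi.sub hgi).abs
          (((hfi.sub (hAvi n)).abs).add ((hAvi n).sub hgi).abs) fun ω => ?_
        exact abs_sub_le _ _ _
    _ = ∫ ω, |f ω - Av T W n f ω| ∂P + ∫ ω, |Av T W n f ω - g ω| ∂P :=
        integral_add (hfi.sub (hAvi n)).abs ((hAvi n).sub hgi).abs
    _ ≤ e + δ := add_le_add (h1 n hn2) h4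

end Pool.Agent.H78.AG
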