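import Pool.Agent.H67.AG.T1

set_option autoImplicit false

open MeasureTheory ProbabilityTheory Filter Topology Finset
open scoped Nat ENNReal

namespace Pool.Agent.H78.AG

open Pool.Agent.H67.AG

theorem pf_IF : T_IF := by
  intro Ω _ P _ T W f hT hf hb hfW
  obtain ⟨C, hC⟩ := hb
  set S : Ω → Ω := T^[W] with hS
  have hSm : MeasurePreserving S P P := hT.iterate W
  have hall : ∀ᵐ ω ∂P, ∀ n : ℕ, f (S^[n] ω) = f ω := by
    rw [ae_all_iff]
    intro n
    induction n with
    | zero => exact Eventually.of_forall fun ω => rfl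
    | succ n ih =>
      have h1 : ∀ᵐ ω ∂P, f (S^[n] (S ω)) = f (S ω) := hSm.quasiMeasurePreserving.ae ih
      filter_upwards [h1, hfW] with ω e1 e2
      rw [Function.iterate_succ_apply, e1, e2]
  set f' : Ω → ℝ := fun ω => limsup (fun n : ℕ => f (S^[n] ω)) atTop with hf'
  have hm : Measurable f' :=
    Measurable.limsup fun n => hf.comp (hSm.measurable.iterate n)
  have hinv : ∀ ω, f' (S ω) = f' ω := by
    intro ω
    have h2 := Filter.limsup_nat_add (fun n : ℕ => f (S^[n] ω)) 1
    rw [hf']
    simp only
    rw [← h2]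
    simp only [Function.iterate_succ_apply]
  have heq : f' =ᵐ[P] f := by
    filter_upwards [hall] with ω h
    simp only [hf', h]
    exact limsup_const _
  have hmi : Measurable[Inv T W] f' := by
    rw [MeasurableSpace.measurable_invariants_dom]
    refine ⟨hm, fun s _ => ?_⟩
    ext ω
    simp only [Set.mem_preimage, Function.comp_apply]
    rw [← hS, hinv]
  have hle : Inv T W ≤ ‹MeasurableSpace Ω› := MeasurableSpace.invariants_le _
  have hint : Integrable f P := by
    refine Integrable.of_bound hf.aestronglyMeasurable C (Eventually.of_forall fun ω => ?_)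
    rw [Real.norm_eq_abs]
    exact hC ω
  have hint' : Integrable f' P := hint.congr heq.symm
  have h3 : P[f' | Inv T W] = f' :=
    condExp_of_stronglyMeasurable hle hmi.stronglyMeasurable hint'
  calc P[f | Inv T W] =ᵐ[P] P[f' | Inv T W] := condExp_congr_ae heq.symm
    _ =ᵐ[P] f' := by rw [h3]
    _ =ᵐ[P] f := heq

end Pool.Agent.H78.AG
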