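import Mathlib
import Pool.Agent.H24.AG.Targets
import Pool.Agent.H22.MR.Cheb

/-!
ABSOLUTE GAP (`MP_c59857_nt`), row VRZ: Siegel-Walfisz for the sums with the weight `log (X / n)`.
-/

set_option autoImplicit false

open MeasureTheory ProbabilityTheory Filter Topology Finset
open scoped Nat

namespace Pool.Agent.H78.AG

open Pool.Agent.H24.AG
open Pool.Agent.H30.BV (cv TX NX wx)
open Pool.Agent.H27.LS (hat hat_nonneg hat_le_one hat_eq_zero)

/-- the identity for the negative part -/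
lemma vrz_hat_sum (v : ℝ) (hv : 0 ≤ v) (J : ℕ) (hJ : v < J) :
    ∑ j ∈ Icc 1 J, (j : ℝ) * hat (-v + j) = v := by
  set m : ℕ := ⌊v⌋₊ with hm
  have h1 : (m : ℝ) ≤ v := Nat.floor_le hv
  have h2 : v < m + 1 := Nat.lt_floor_add_one v
  have hmJ : m + 1 ≤ J := by
    have h3 : (m : ℝ) < J := lt_of_le_of_lt h1 hJ
    exact_mod_cast h3
  have h0 : ∀ j : ℕ, j ≠ m → j ≠ m + 1 → hat (-v + j) = 0 := by
    intro j hj1 hj2
    apply hat_eq_zero
    rcases lt_or_ge j m with h | h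
    · have h4 : (j : ℝ) + 1 ≤ m := by exact_mod_cast h
      rw [abs_of_nonpos (by linarith)]
      linarith
    · have h4 : m + 2 ≤ j := by omega
      have h5 : (m : ℝ) + 2 ≤ j := by exact_mod_cast h4
      rw [abs_of_nonneg (by linarith)]
      linarith
  have hA : hat (-v + (m : ℝ)) = 1 - v + m := by
    unfold hat
    rw [abs_of_nonpos (by linarith)]
    rw [max_eq_right (by linarith)]
    ring
  have hB : hat (-v + ((m + 1 : ℕ) : ℝ)) = v - m := by
    unfold hat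
    push_cast
    rw [abs_of_nonneg (by linarith)]
    rw [max_eq_right (by linarith)]
    ring
  have hsub : ∑ j ∈ Icc 1 J, (j : ℝ) * hat (-v + j) =
      ∑ j ∈ ({m, m + 1} : Finset ℕ), (j : ℝ) * hat (-v + j) := by
    have e1 : ∑ j ∈ Icc 1 J, (j : ℝ) * hat (-v + j) =
        ∑ j ∈ range (J + 1), (j : ℝ) * hat (-v + j) := by
      apply Finset.sum_subset
      · intro j hj
        rw [mem_Icc] at hj
        rw [mem_range]
        omega
      · intro j hj hj2
        rw [mem_range] at hj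
        rw [mem_Icc] at hj2
        have : j = 0 := by omega
        rw [this]
        simp
    rw [e1]
    symm
    apply Finset.sum_subset
    · intro j hj
      simp only [mem_insert, mem_singleton] at hj
      rw [mem_range]
      omega
    · intro j _ hj2
      simp only [mem_insert, mem_singleton, not_or] at hj2
      rw [h0 j hj2.1 hj2.2, mul_zero]
  rw [hsub, Finset.sum_pair (by omega), hA, hB]
  push_cast
  ring

/-- `TX` at the scale `Y` only needs the integers up to `N`, if `3 Y ≤ N + 1`, or `e Y ≤ N + 1` -/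
lemma vrz_TX_eq (Y : ℝ) (hY : 0 < Y) (N : ℕ) (hN : Real.exp 1 * Y ≤ N + 1) (f : ℕ → ℂ) :
    TX Y f = ∑ n ∈ Icc 1 N, (wx Y n : ℂ) * f n := by
  have key : ∀ n : ℕ, Real.exp 1 * Y ≤ n → wx Y n = 0 := by
    intro n hn
    unfold wx
    rw [hat_eq_zero, mul_zero]
    have h1 : (0 : ℝ) < n := lt_of_lt_of_le (mul_pos (Real.exp_pos 1) hY) hn
    have h2 : (1 : ℝ) ≤ Real.log (n / Y) := by
      rw [Real.le_log_iff_exp_le (div_pos h1 hY), le_div_iff₀ hY]
      exact hn
    rwa [abs_of_nonneg (by linarith)]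
  have hU : ∀ M : ℕ, Real.exp 1 * Y ≤ M + 1 → ∑ n ∈ Icc 1 M, (wx Y n : ℂ) * f n =
      ∑ n ∈ Icc 1 (max M N), (wx Y n : ℂ) * f n := by
    intro M hM
    apply Finset.sum_subset
    · intro n hn
      rw [mem_Icc] at hn ⊢
      exact ⟨hn.1, hn.2.trans (le_max_left _ _)⟩
    · intro n hn hn2
      rw [mem_Icc] at hn hn2
      have h1 : M + 1 ≤ n := by omega
      have h2 : (M : ℝ) + 1 ≤ n := by exact_mod_cast h1
      rw [key n (hM.trans h2)]
      simp
  have hV : ∑ n ∈ Icc 1 N, (wx Y n : ℂ) * f n =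
      ∑ n ∈ Icc 1 (max (NX Y) N), (wx Y n : ℂ) * f n := by
    apply Finset.sum_subset
    · intro n hn
      rw [mem_Icc] at hn ⊢
      exact ⟨hn.1, hn.2.trans (le_max_right _ _)⟩
    · intro n hn hn2
      rw [mem_Icc] at hn hn2
      have h1 : N + 1 ≤ n := by omega
      have h2 : (N : ℝ) + 1 ≤ n := by exact_mod_cast h1
      rw [key n (hN.trans h2)]
      simp
  unfold TX
  rw [hU (NX Y) (by
    have h1 : 3 * Y ≤ (NX Y : ℝ) := Nat.le_ceil _
    have h2 := Pool.Agent.H22.MR.exp1_lt3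
    nlinarith), hV]

lemma vrz_TX_triv (Y : ℝ) (hY : 0 < Y) (f : ℕ → ℂ) (hf : ∀ n, ‖f n‖ ≤ 1) :
    ‖TX Y f‖ ≤ 6 * (3 * Y + 1) := by
  unfold TX
  calc ‖∑ n ∈ Icc 1 (NX Y), (wx Y n : ℂ) * f n‖ ≤ ∑ n ∈ Icc 1 (NX Y), ‖(wx Y n : ℂ) * f n‖ :=
        norm_sum_le _ _
    _ ≤ ∑ n ∈ Icc 1 (NX Y), ArithmeticFunction.vonMangoldt n := by
        apply Finset.sum_le_sum
        intro n _
        have h0 : 0 ≤ ArithmeticFunction.vonMangoldt n := ArithmeticFunction.vonMangoldt_nonneg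
        rw [norm_mul, Complex.norm_real, Real.norm_eq_abs]
        have h1 : |wx Y n| ≤ ArithmeticFunction.vonMangoldt n := by
          unfold wx
          rw [abs_of_nonneg (mul_nonneg h0 (hat_nonneg _))]
          exact mul_le_of_le_one_right h0 (hat_le_one _)
        calc |wx Y n| * ‖f n‖ ≤ |wx Y n| * 1 :=
              mul_le_mul_of_nonneg_left (hf n) (abs_nonneg _)
          _ ≤ _ := by rw [mul_one]; exact h1
    _ ≤ 6 * (NX Y : ℝ) := by
        have h := Pool.Agent.H22.MR.psi_bound (NX Y : ℝ) (Nat.cast_nonneg _)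
        rwa [Nat.floor_natCast] at h
    _ ≤ 6 * (3 * Y + 1) := by
        have h : (NX Y : ℝ) < 3 * Y + 1 := Nat.ceil_lt_add_one (by positivity)
        linarith

lemma vrz_cv_norm {q : ℕ} (χ : DirichletCharacter ℂ q) (n : ℕ) : ‖cv χ n‖ ≤ 1 := by
  unfold cv
  exact DirichletCharacter.norm_le_one χ _

lemma vrz_dec (X : ℝ) (hX : 1 ≤ X) (J : ℕ) (hJ : Real.log X < J) (f : ℕ → ℂ) :
    ∑ n ∈ Finset.Icc 1 ⌊X⌋₊, ((ArithmeticFunction.vonMangoldt n : ℝ) : ℂ) * f n *
      ((Real.log (X / n) : ℝ) : ℂ) = ∑ j ∈ Icc 1 J, (j : ℂ) * TX (X * Real.exp (-(j : ℝ))) f := by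
  have hX0 : 0 < X := by linarith
  have h1 : ∀ j ∈ Icc 1 J, (j : ℂ) * TX (X * Real.exp (-(j : ℝ))) f =
      ∑ n ∈ Icc 1 ⌊X⌋₊, (j : ℂ) * ((wx (X * Real.exp (-(j : ℝ))) n : ℂ) * f n) := by
    intro j hj
    rw [mem_Icc] at hj
    rw [vrz_TX_eq (X * Real.exp (-(j : ℝ))) (by positivity) ⌊X⌋₊, Finset.mul_sum]
    have h2 : Real.exp 1 * (X * Real.exp (-(j : ℝ))) = X * Real.exp (1 - j) := by
      rw [sub_eq_add_neg, Real.exp_add]
      ring
    rw [h2]
    have h3 : Real.exp (1 - (j : ℝ)) ≤ 1 := by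
      rw [Real.exp_le_one_iff]
      have : (1 : ℝ) ≤ j := by exact_mod_cast hj.1
      linarith
    have h4 : X < ⌊X⌋₊ + 1 := Nat.lt_floor_add_one X
    nlinarith
  rw [Finset.sum_congr rfl h1, Finset.sum_comm]
  apply Finset.sum_congr rfl
  intro n hn
  rw [mem_Icc] at hn
  have hn0 : (0 : ℝ) < n := by exact_mod_cast hn.1
  have hnX : (n : ℝ) ≤ X := (Nat.le_floor_iff hX0.le).1 hn.2
  have h5 : Real.log (X / n) = ∑ j ∈ Icc 1 J, (j : ℝ) * hat (-Real.log (X / n) + j) := by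
    rw [vrz_hat_sum _ (Real.log_nonneg ((one_le_div hn0).2 hnX)) J]
    refine lt_of_le_of_lt ?_ hJ
    apply Real.log_le_log (by positivity)
    rw [div_le_iff₀ hn0]
    have : (1 : ℝ) ≤ n := by exact_mod_cast hn.1
    nlinarith
  have h6 : ∀ j : ℕ, Real.log (n / (X * Real.exp (-(j : ℝ)))) = -Real.log (X / n) + j := by
    intro j
    rw [Real.log_div hn0.ne' (by positivity), Real.log_mul hX0.ne' (Real.exp_pos _).ne',
      Real.log_exp, Real.log_div hX0.ne' hn0.ne']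
    ring
  conv_lhs => rw [h5]
  push_cast
  rw [Finset.mul_sum]
  apply Finset.sum_congr rfl
  intro j _
  unfold wx
  rw [h6 j]
  push_cast
  ring

open Real in
theorem pf_VRZ (h : Pool.Agent.H47.VT.T_SW) : T_VRZ := by
  intro A B
  obtain ⟨X₁, hX₁⟩ := h (A + 2) (B + 1)
  have ev : ∀ᶠ X : ℝ in atTop, X₁ ≤ √X ∧ 2 ^ (B + 1) ≤ Real.log X ∧ 2 ^ (A + 4) ≤ Real.log X ∧
      192 ^ 2 * Real.log X ^ (2 * (A + 2)) ≤ X ∧ 1 ≤ X := by
    have e1 : ∀ᶠ X : ℝ in atTop, X₁ ≤ √X := by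
      have := Real.tendsto_sqrt_atTop
      exact this.eventually_ge_atTop X₁
    have e2 : ∀ᶠ X : ℝ in atTop, 2 ^ (B + 1) ≤ Real.log X :=
      Real.tendsto_log_atTop.eventually_ge_atTop _
    have e3 : ∀ᶠ X : ℝ in atTop, 2 ^ (A + 4) ≤ Real.log X :=
      Real.tendsto_log_atTop.eventually_ge_atTop _
    have e4 : ∀ᶠ X : ℝ in atTop, 192 ^ 2 * Real.log X ^ (2 * (A + 2)) ≤ X := by
      have h1 := (Real.isLittleO_pow_log_id_atTop (n := 2 * (A + 2))).bound
        (c := 1 / 192 ^ 2) (by norm_num)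
      filter_upwards [h1, eventually_ge_atTop (0 : ℝ)] with X hX hX0
      rw [Real.norm_eq_abs, Real.norm_eq_abs, id, abs_of_nonneg hX0] at hX
      have h2 := (le_abs_self (Real.log X ^ (2 * (A + 2)))).trans hX
      have h3 : (0 : ℝ) < 192 ^ 2 := by norm_num
      calc 192 ^ 2 * Real.log X ^ (2 * (A + 2)) ≤ 192 ^ 2 * (1 / 192 ^ 2 * X) :=
            mul_le_mul_of_nonneg_left h2 h3.le
        _ = X := by field_simp
    filter_upwards [e1, e2, e3, e4, eventually_ge_atTop (1 : ℝ)] with X a b c d e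
    exact ⟨a, b, c, d, e⟩
  obtain ⟨X₀, hX₀⟩ := eventually_atTop.1 ev
  refine ⟨X₀, fun X hX q χ hq hqX hχ => ?_⟩
  obtain ⟨c1, c2, c3, c4, c5⟩ := hX₀ X hX
  have hX0 : 0 < X := by linarith
  set L : ℝ := Real.log X with hL
  have hL1 : 1 ≤ L := le_trans (one_le_pow₀ (by norm_num)) c2
  have hL0 : 0 < L := by linarith
  set J : ℕ := ⌊L⌋₊ + 1 with hJ
  have hJ1 : L < (J : ℝ) := by
    rw [hJ]
    push_cast
    exact Nat.lt_floor_add_one L
  have hJ2 : (J : ℝ) ≤ 2 * L := by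
    rw [hJ]
    push_cast
    have := Nat.floor_le hL0.le
    linarith
  rw [vrz_dec X c5 J hJ1 (cv χ)]
  have hs0 : 0 < √X := Real.sqrt_pos.2 hX0
  have hs1 : 1 ≤ √X := Real.one_le_sqrt.2 c5
  -- each term
  have hterm : ∀ j ∈ Icc 1 J, ‖(j : ℂ) * TX (X * Real.exp (-(j : ℝ))) (cv χ)‖ ≤
      X * 2 ^ (A + 2) / L ^ (A + 2) + J * (24 * √X) := by
    intro j hj
    rw [mem_Icc] at hj
    have hj1 : (j : ℝ) ≤ J := by exact_mod_cast hj.2
    rw [norm_mul, Complex.norm_natCast]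
    set Y : ℝ := X * Real.exp (-(j : ℝ)) with hY
    have hY0 : 0 < Y := by positivity
    rcases le_or_gt (√X) Y with hc | hc
    · have hLY : L / 2 ≤ Real.log Y := by
        have h1 : Real.log (√X) ≤ Real.log Y := Real.log_le_log hs0 hc
        rw [Real.log_sqrt hX0.le] at h1
        exact h1
      have hLY0 : 0 < Real.log Y := by linarith
      have hq2 : (q : ℝ) ≤ Real.log Y ^ (B + 1) := by
        refine hqX.trans ?_
        have h1 : (L / 2) ^ (B + 1) ≤ Real.log Y ^ (B + 1) :=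
          pow_le_pow_left₀ (by linarith) hLY _
        refine le_trans ?_ h1
        rw [div_pow, le_div_iff₀ (by positivity), pow_succ L B]
        exact mul_le_mul_of_nonneg_left c2 (by positivity)
      have h2 := hX₁ Y (c1.trans hc) q χ 0 hq hq2 hχ (by simp) (by simp) (by
        simp only [Complex.zero_im, abs_zero]
        positivity)
      have h3 : (fun n : ℕ => cv χ n * (n : ℂ) ^ (-(0 : ℂ))) = cv χ := by
        funext n
        rw [neg_zero, Complex.cpow_zero, mul_one]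
      rw [h3] at h2
      have h4 : Y / Real.log Y ^ (A + 2) ≤ Y * 2 ^ (A + 2) / L ^ (A + 2) := by
        rw [div_le_div_iff₀ (by positivity) (by positivity)]
        have h5 : L ^ (A + 2) ≤ 2 ^ (A + 2) * Real.log Y ^ (A + 2) := by
          rw [← mul_pow]
          exact pow_le_pow_left₀ hL0.le (by linarith) _
        calc Y * L ^ (A + 2) ≤ Y * (2 ^ (A + 2) * Real.log Y ^ (A + 2)) :=
              mul_le_mul_of_nonneg_left h5 hY0.le
          _ = _ := by ring
      have h6 : (j : ℝ) * Y ≤ X := by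
        rw [hY]
        have h7 : (j : ℝ) * Real.exp (-(j : ℝ)) ≤ 1 := by
          rw [Real.exp_neg, ← div_eq_mul_inv, div_le_one (Real.exp_pos _)]
          have := Real.add_one_le_exp (j : ℝ)
          linarith
        calc (j : ℝ) * (X * Real.exp (-(j : ℝ))) = X * ((j : ℝ) * Real.exp (-(j : ℝ))) := by ring
          _ ≤ X * 1 := mul_le_mul_of_nonneg_left h7 hX0.le
          _ = X := mul_one X
      calc (j : ℝ) * ‖TX Y (cv χ)‖ ≤ (j : ℝ) * (Y * 2 ^ (A + 2) / L ^ (A + 2)) :=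
            mul_le_mul_of_nonneg_left (h2.trans h4) (Nat.cast_nonneg _)
        _ = ((j : ℝ) * Y) * (2 ^ (A + 2) / L ^ (A + 2)) := by ring
        _ ≤ X * (2 ^ (A + 2) / L ^ (A + 2)) := mul_le_mul_of_nonneg_right h6 (by positivity)
        _ = X * 2 ^ (A + 2) / L ^ (A + 2) := by ring
        _ ≤ _ := le_add_of_nonneg_right (by positivity)
    · have h2 := vrz_TX_triv Y hY0 (cv χ) (vrz_cv_norm χ)
      have h3 : 6 * (3 * Y + 1) ≤ 24 * √X := by nlinarith
      calc (j : ℝ) * ‖TX Y (cv χ)‖ ≤ (J : ℝ) * (24 * √X) :=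
            mul_le_mul hj1 (h2.trans h3) (norm_nonneg _) (Nat.cast_nonneg _)
        _ ≤ _ := le_add_of_nonneg_left (by positivity)
  have hsum : ‖∑ j ∈ Icc 1 J, (j : ℂ) * TX (X * Real.exp (-(j : ℝ))) (cv χ)‖ ≤
      J * (X * 2 ^ (A + 2) / L ^ (A + 2) + J * (24 * √X)) := by
    refine (norm_sum_le _ _).trans ((Finset.sum_le_sum hterm).trans ?_)
    rw [Finset.sum_const, nsmul_eq_mul, Nat.card_Icc]
    simp
  refine hsum.trans ?_
  -- the final comparison
  have hA : (J : ℝ) * (X * 2 ^ (A + 2) / L ^ (A + 2)) ≤ X / L ^ A / 2 := by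
    have h1 : (J : ℝ) * (X * 2 ^ (A + 2) / L ^ (A + 2)) ≤
        2 * L * (X * 2 ^ (A + 2) / L ^ (A + 2)) :=
      mul_le_mul_of_nonneg_right hJ2 (by positivity)
    refine h1.trans ?_
    have h2 : 2 * L * (X * 2 ^ (A + 2) / L ^ (A + 2)) = (X / L ^ A) * (2 ^ (A + 3) / L) := by
      rw [pow_add L A 2]
      field_simp
      ring
    rw [h2, div_eq_mul_one_div (X / L ^ A) 2]
    apply mul_le_mul_of_nonneg_left _ (by positivity)
    rw [div_le_div_iff₀ hL0 (by norm_num)]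
    calc (2 : ℝ) ^ (A + 3) * 2 = 2 ^ (A + 4) := by ring
      _ ≤ L := c3
      _ = 1 * L := (one_mul L).symm
  have hB : (J : ℝ) * (J * (24 * √X)) ≤ X / L ^ A / 2 := by
    have h1 : (J : ℝ) * (J * (24 * √X)) ≤ 2 * L * (2 * L * (24 * √X)) :=
      mul_le_mul hJ2 (mul_le_mul_of_nonneg_right hJ2 (by positivity)) (by positivity)
        (by positivity)
    refine h1.trans ?_
    have h2 : 192 * L ^ (A + 2) ≤ √X := by
      apply Real.le_sqrt_of_sq_le
      calc (192 * L ^ (A + 2)) ^ 2 = 192 ^ 2 * L ^ (2 * (A + 2)) := by ring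
        _ ≤ X := c4
    have h3 : √X * √X = X := Real.mul_self_sqrt hX0.le
    rw [div_div, le_div_iff₀ (by positivity)]
    calc 2 * L * (2 * L * (24 * √X)) * (L ^ A * 2) = (192 * L ^ (A + 2)) * √X := by ring
      _ ≤ √X * √X := mul_le_mul_of_nonneg_right h2 hs0.le
      _ = X := h3
  calc (J : ℝ) * (X * 2 ^ (A + 2) / L ^ (A + 2) + J * (24 * √X)) =
      (J : ℝ) * (X * 2 ^ (A + 2) / L ^ (A + 2)) + (J : ℝ) * (J * (24 * √X)) := by ring
    _ ≤ X / L ^ A / 2 + X / L ^ A / 2 := add_le_add hA hB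
    _ = X / L ^ A := by ring

end Pool.Agent.H78.AG
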